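import Pool.Agent.Lib.helper15.SimpRef

set_option autoImplicit false

open Pool.Agent.Lib.helper15.SimpRef

namespace Pool.Agent.Results.MP_b12348_gt.Counter

theorem result : ∃ (C : Set (Fin 4 → ℝ)) (T : Set (Fin 4 ⊕ Fin 4 → ℝ)),
    IsPolytope C ∧ (∀ n, ¬IsSimplex C n) ∧ (C.extremePoints ℝ).ncard = 12 ∧ IsSimplex T 8 ∧
      (∃ D f D' g, Refines T C D f D' g) ∧
      ∀ (V : Type) [AddCommGroup V] [Module ℝ V] (T₀ : Set V), IsSimplex T₀ 12 →
        ¬∃ D f' D' g', Refines T T₀ D f' D' g' := by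
  refine ⟨C _, _, poly, not_simplex (by norm_num), by simp [card_extreme],
    simplex_std (finSumFinEquiv (m := 4) (n := 4)).symm, ⟨_, _, refines⟩, ?_⟩
  rintro V _ _ T₀ h ⟨D, f, D', g, r⟩
  simpa using dim_le h r.hf

end Pool.Agent.Results.MP_b12348_gt.Counter
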